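import Mathlib

/-!
# The box theorem fails for product sets in non-commutative groups
-/

namespace Pool.Agent.Results.MP_c59173_co.NoBoxTheorem

open Finset

/-- The product set `T 0 * T 1 * ... * T (n - 1)`, factors taken in this order. -/
def prodSet {G : Type*} [Group G] {n : ℕ} (T : Fin n → Set G) : Set G :=
  {g | ∃ s : Fin n → G, (∀ i, s i ∈ T i) ∧ g = (List.ofFn s).prod}

open Classical in
/-- The number `N_A`: the largest size of a product set obtained from `S 0 * ... * S (n - 1)` by
replacing each `S i` with `i` not in `A` by a one-element subset. -/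
noncomputable def maxSize {G : Type*} [Group G] {n : ℕ} (S : Fin n → Finset G)
    (A : Finset (Fin n)) : ℕ :=
  sSup {m | ∃ x : Fin n → G, (∀ i, x i ∈ S i) ∧
    m = (prodSet fun i => if i ∈ A then (S i : Set G) else {x i}).ncard}

/-- The group: four copies of the dihedral group of order eight. -/
abbrev G4 := Fin 4 → DihedralGroup 4

/-- Powers of the first reflection. -/
def xp (a : ZMod 2) : DihedralGroup 4 := if a = 0 then 1 else DihedralGroup.sr 0

/-- Powers of the second reflection. -/
def yp (a : ZMod 2) : DihedralGroup 4 := if a = 0 then 1 else DihedralGroup.sr 1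

theorem xp_add (a b : ZMod 2) : xp (a + b) = xp a * xp b := by
  revert a b; decide

theorem yp_add (a b : ZMod 2) : yp (a + b) = yp a * yp b := by
  revert a b; decide

theorem xp_zero : xp 0 = 1 := rfl

theorem yp_zero : yp 0 = 1 := rfl

theorem normal_form (n v u m n' v' u' m' : ZMod 2)
    (h : xp n * yp u * xp v * yp m = xp n' * yp u' * xp v' * yp m') :
    n + v = n' + v' ∧ u + m = u' + m' ∧ u * v = u' * v' := by
  revert n v u m n' v' u' m'
  decide

/-- Words in the first reflections. -/
def xw (n : Fin 4 → ZMod 2) : G4 := fun j => xp (n j)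

/-- Words in the second reflections. -/
def yw (n : Fin 4 → ZMod 2) : G4 := fun j => yp (n j)

theorem xw_add (n m : Fin 4 → ZMod 2) : xw (n + m) = xw n * xw m := by
  funext j; exact xp_add _ _

theorem yw_add (n m : Fin 4 → ZMod 2) : yw (n + m) = yw n * yw m := by
  funext j; exact yp_add _ _

/-- The unit vectors. -/
def e (i : Fin 4) : Fin 4 → ZMod 2 := Pi.single i 1

/-- Even words. -/
def E : Finset (Fin 4 → ZMod 2) := Finset.univ.filter fun n => ∑ j, n j = 0

theorem card_E : E.card = 8 := by decide

/-- The four factors. -/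
def S : Fin 4 → Finset G4 :=
  ![E.image xw, Finset.univ.image fun i => yw (e i), Finset.univ.image fun i => xw (e i),
    E.image yw]

theorem add_mem_E {n : Fin 4 → ZMod 2} (hn : n ∈ E) (i j : Fin 4) : n + (e i + e j) ∈ E := by
  unfold E at *
  rw [Finset.mem_filter] at *
  refine ⟨Finset.mem_univ _, ?_⟩
  have h : ∀ i : Fin 4, ∑ k, e i k = 1 := by decide
  simp only [Pi.add_apply, Finset.sum_add_distrib, hn.2, h]
  decide

theorem comm_xy (n : Fin 4 → ZMod 2) (i : Fin 4) (h : n i = 0) :
    xw n * yw (e i) = yw (e i) * xw n := by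
  funext j
  show xp (n j) * yp (e i j) = yp (e i j) * xp (n j)
  by_cases hj : j = i
  · subst hj
    rw [h, xp_zero, one_mul, mul_one]
  · have : e i j = 0 := by
      unfold e
      rw [Pi.single_eq_of_ne hj]
    rw [this, yp_zero, one_mul, mul_one]

theorem comm_yx (n : Fin 4 → ZMod 2) (i : Fin 4) (h : n i = 0) :
    yw n * xw (e i) = xw (e i) * yw n := by
  funext j
  show yp (n j) * xp (e i j) = xp (e i j) * yp (n j)
  by_cases hj : j = i
  · subst hj
    rw [h, yp_zero, one_mul, mul_one]
  · have : e i j = 0 := by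
      unfold e
      rw [Pi.single_eq_of_ne hj]
    rw [this, xp_zero, one_mul, mul_one]

theorem e_add_apply {i j k : Fin 4} (h1 : j ≠ i) (h2 : k ≠ i) : (e j + e k) i = 0 := by
  unfold e
  rw [Pi.add_apply, Pi.single_eq_of_ne (Ne.symm h1), Pi.single_eq_of_ne (Ne.symm h2), add_zero]

theorem e_add_self (i : Fin 4) (x : Fin 4 → ZMod 2) : x + e i + e i = x := by
  have : e i + e i = 0 := by revert i; decide
  rw [add_assoc, this, add_zero]

/-- An index different from a given one. -/
def other (i : Fin 4) : Fin 4 := if i = 0 then 1 else 0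

theorem other_ne (i : Fin 4) : other i ≠ i := by revert i; decide

theorem prod_four (s : Fin 4 → G4) : (List.ofFn s).prod = s 0 * s 1 * s 2 * s 3 := by
  simp [List.ofFn_succ, mul_assoc]

theorem key_x {n : Fin 4 → ZMod 2} (hn : n ∈ E) (i j : Fin 4) (q : G4) :
    xw n * yw (e i) * xw (e j) * q ∈
      ((E.image xw).image fun p => p * (yw (e i) * xw (e i) * q)) ∪
      ((E.image xw).image fun p => p * (yw (e i) * xw (e (other i)) * q)) := by
  rw [Finset.mem_union]
  by_cases hj : j = i
  · left
    subst hj
    rw [Finset.mem_image]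
    exact ⟨xw n, Finset.mem_image_of_mem _ hn, by simp only [mul_assoc]⟩
  · right
    rw [Finset.mem_image]
    refine ⟨xw (n + (e j + e (other i))), Finset.mem_image_of_mem _ (add_mem_E hn _ _), ?_⟩
    rw [xw_add]
    calc xw n * xw (e j + e (other i)) * (yw (e i) * xw (e (other i)) * q)
        = xw n * (xw (e j + e (other i)) * yw (e i)) * xw (e (other i)) * q := by
          simp only [mul_assoc]
      _ = xw n * (yw (e i) * xw (e j + e (other i))) * xw (e (other i)) * q := by
          rw [comm_xy _ _ (e_add_apply hj (other_ne i))]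
      _ = xw n * yw (e i) * (xw (e j + e (other i)) * xw (e (other i))) * q := by
          simp only [mul_assoc]
      _ = xw n * yw (e i) * xw (e j) * q := by
          rw [← xw_add, e_add_self]

theorem key_y {m : Fin 4 → ZMod 2} (hm : m ∈ E) (i j : Fin 4) (p : G4) :
    p * yw (e i) * xw (e j) * yw m ∈
      ((E.image yw).image fun q => p * yw (e j) * xw (e j) * q) ∪
      ((E.image yw).image fun q => p * yw (e (other j)) * xw (e j) * q) := by
  rw [Finset.mem_union]
  by_cases hj : i = j
  · left
    subst hj
    rw [Finset.mem_image]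
    exact ⟨yw m, Finset.mem_image_of_mem _ hm, rfl⟩
  · right
    rw [Finset.mem_image]
    refine ⟨yw (m + (e i + e (other j))), Finset.mem_image_of_mem _ (add_mem_E hm _ _), ?_⟩
    rw [add_comm m, yw_add]
    calc p * yw (e (other j)) * xw (e j) * (yw (e i + e (other j)) * yw m)
        = p * yw (e (other j)) * (xw (e j) * yw (e i + e (other j))) * yw m := by
          simp only [mul_assoc]
      _ = p * yw (e (other j)) * (yw (e i + e (other j)) * xw (e j)) * yw m := by
          rw [comm_yx _ _ (e_add_apply hj (other_ne j))]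
      _ = p * (yw (e (other j)) * yw (e i + e (other j))) * xw (e j) * yw m := by
          simp only [mul_assoc]
      _ = p * yw (e i) * xw (e j) * yw m := by
          rw [← yw_add, add_comm (e (other j)), e_add_self]

theorem card_two (F : Finset G4) (hF : F.card ≤ 8) (f g : G4 → G4) :
    (F.image f ∪ F.image g).card ≤ 16 := by
  have h1 := Finset.card_union_le (F.image f) (F.image g)
  have h2 := Finset.card_image_le (s := F) (f := f)
  have h3 := Finset.card_image_le (s := F) (f := g)
  omega

theorem bound_02 : maxSize S {0, 2} ≤ 16 := by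
  classical
  unfold maxSize
  apply csSup_le'
  rintro m ⟨x, hx, rfl⟩
  have h1 : x 1 ∈ Finset.univ.image fun i => yw (e i) := hx 1
  rw [Finset.mem_image] at h1
  obtain ⟨i, -, hi⟩ := h1
  have hsub : (prodSet fun k => if k ∈ ({0, 2} : Finset (Fin 4)) then (S k : Set G4) else {x k}) ⊆
      (((E.image xw).image fun p => p * (yw (e i) * xw (e i) * x 3)) ∪
      ((E.image xw).image fun p => p * (yw (e i) * xw (e (other i)) * x 3)) : Finset G4) := by
    rintro g ⟨s, hs, rfl⟩
    rw [prod_four]
    have h0 : s 0 ∈ E.image xw := hs 0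
    have h1 : s 1 = x 1 := hs 1
    have h2 : s 2 ∈ Finset.univ.image fun i => xw (e i) := hs 2
    have h3 : s 3 = x 3 := hs 3
    rw [Finset.mem_image] at h0 h2
    obtain ⟨n, hn, hn'⟩ := h0
    obtain ⟨j, -, hj⟩ := h2
    rw [h1, h3, ← hi, ← hn', ← hj]
    exact Finset.mem_coe.2 (key_x hn i j (x 3))
  refine (Set.ncard_le_ncard hsub (Finset.finite_toSet _)).trans ?_
  rw [Set.ncard_coe_finset]
  exact card_two _ (Finset.card_image_le.trans card_E.le) _ _

theorem bound_13 : maxSize S {1, 3} ≤ 16 := by
  classical
  unfold maxSize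
  apply csSup_le'
  rintro m ⟨x, hx, rfl⟩
  have h1 : x 2 ∈ Finset.univ.image fun i => xw (e i) := hx 2
  rw [Finset.mem_image] at h1
  obtain ⟨j, -, hj⟩ := h1
  have hsub : (prodSet fun k => if k ∈ ({1, 3} : Finset (Fin 4)) then (S k : Set G4) else {x k}) ⊆
      (((E.image yw).image fun q => x 0 * yw (e j) * xw (e j) * q) ∪
      ((E.image yw).image fun q => x 0 * yw (e (other j)) * xw (e j) * q) : Finset G4) := by
    rintro g ⟨s, hs, rfl⟩
    rw [prod_four]
    have h0 : s 0 = x 0 := hs 0
    have h1 : s 1 ∈ Finset.univ.image fun i => yw (e i) := hs 1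
    have h2 : s 2 = x 2 := hs 2
    have h3 : s 3 ∈ E.image yw := hs 3
    rw [Finset.mem_image] at h1 h3
    obtain ⟨m, hm, hm'⟩ := h3
    obtain ⟨i, -, hi⟩ := h1
    rw [h0, h2, ← hj, ← hm', ← hi]
    exact Finset.mem_coe.2 (key_y hm i j (x 0))
  refine (Set.ncard_le_ncard hsub (Finset.finite_toSet _)).trans ?_
  rw [Set.ncard_coe_finset]
  exact card_two _ (Finset.card_image_le.trans card_E.le) _ _

/-- The words used in the lower bound for the full product set. -/
def uv : Option (Fin 4) → Fin 4 × Fin 4
  | none => (0, 1)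
  | some i => (i, i)

/-- The product of the chosen elements. -/
def F (t : Option (Fin 4) × E × E) : G4 :=
  xw t.2.1 * yw (e (uv t.1).1) * xw (e (uv t.1).2) * yw t.2.2

theorem uv_prod (t : Option (Fin 4)) (j : Fin 4) :
    e (uv t).1 j * e (uv t).2 j = 1 ↔ t = some j := by
  revert t j; decide

theorem F_injective : Function.Injective F := by
  rintro ⟨t, ⟨n, hn⟩, ⟨m, hm⟩⟩ ⟨t', ⟨n', hn'⟩, ⟨m', hm'⟩⟩ h
  have key : ∀ j : Fin 4, n j + e (uv t).2 j = n' j + e (uv t').2 j ∧
      e (uv t).1 j + m j = e (uv t').1 j + m' j ∧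
      e (uv t).1 j * e (uv t).2 j = e (uv t').1 j * e (uv t').2 j := fun j =>
    normal_form _ _ _ _ _ _ _ _ (congrFun h j)
  have ht : t = t' := by
    have h1 : ∀ j, t = some j ↔ t' = some j := by
      intro j
      rw [← uv_prod, ← uv_prod, (key j).2.2]
    rcases t with _ | j
    · rcases t' with _ | j'
      · rfl
      · exact absurd ((h1 j').2 rfl) (by simp)
    · exact ((h1 j).1 rfl).symm
  subst ht
  have h1 : n = n' := by
    funext j
    exact add_right_cancel (key j).1
  have h2 : m = m' := by
    funext j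
    exact add_left_cancel (key j).2.1
  subst h1 h2
  rfl

theorem card_S : 320 ≤ (prodSet fun i => (S i : Set G4)).ncard := by
  have h1 : ((Finset.univ.image F : Finset G4) : Set G4) ⊆ prodSet fun i => (S i : Set G4) := by
    intro g hg
    rw [Finset.mem_coe, Finset.mem_image] at hg
    obtain ⟨⟨t, ⟨n, hn⟩, ⟨m, hm⟩⟩, -, rfl⟩ := hg
    refine ⟨![xw n, yw (e (uv t).1), xw (e (uv t).2), yw m], ?_, ?_⟩
    · intro i
      fin_cases i
      · exact Finset.mem_coe.2 (Finset.mem_image_of_mem xw hn)
      · exact Finset.mem_coe.2 (Finset.mem_image_of_mem (fun i => yw (e i)) (Finset.mem_univ _))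
      · exact Finset.mem_coe.2 (Finset.mem_image_of_mem (fun i => xw (e i)) (Finset.mem_univ _))
      · exact Finset.mem_coe.2 (Finset.mem_image_of_mem yw hm)
    · rw [prod_four]
      rfl
  have h2 : (Finset.univ.image F : Finset G4).card = 320 := by
    rw [Finset.card_image_of_injective _ F_injective, Finset.card_univ, Fintype.card_prod,
      Fintype.card_prod, Fintype.card_option, Fintype.card_fin, Fintype.card_coe, card_E]
  rw [← h2, ← Set.ncard_coe_finset]
  exact Set.ncard_le_ncard h1 (Set.toFinite _)

/-- The analogue of the box theorem fails for product sets in a finite non-commutative group: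
there are a finite group and four non-empty finite sets such that no positive reals with product
`|S|` satisfy all the inequalities. -/
theorem result : ∃ (G : Type) (_ : Group G) (n : ℕ) (S : Fin n → Finset G),
    Finite G ∧ (∀ i, (S i).Nonempty) ∧
    ∀ l : Fin n → ℝ, (∀ i, 0 < l i) → ∏ i, l i = ((prodSet fun i => (S i : Set G)).ncard : ℝ) →
      ∃ A : Finset (Fin n), (maxSize S A : ℝ) < ∏ i ∈ A, l i := by
  refine ⟨G4, inferInstance, 4, S, inferInstance, ?_, ?_⟩
  · have hE : E.Nonempty := by
      rw [← Finset.card_pos, card_E]; norm_num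
    intro i
    fin_cases i
    · exact hE.image xw
    · exact Finset.univ_nonempty.image fun i => yw (e i)
    · exact Finset.univ_nonempty.image fun i => xw (e i)
    · exact hE.image yw
  · intro l hl hprod
    by_contra hcon
    push Not at hcon
    have h1 := hcon {0, 2}
    have h2 := hcon {1, 3}
    have b1 : (maxSize S {0, 2} : ℝ) ≤ 16 := by exact_mod_cast bound_02
    have b2 : (maxSize S {1, 3} : ℝ) ≤ 16 := by exact_mod_cast bound_13
    have b3 : (320 : ℝ) ≤ ((prodSet fun i => (S i : Set G4)).ncard : ℝ) := by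
      exact_mod_cast card_S
    rw [Finset.prod_pair (by decide)] at h1 h2
    rw [Fin.prod_univ_four] at hprod
    have p1 := mul_pos (hl 0) (hl 2)
    have p2 := mul_pos (hl 1) (hl 3)
    have h3 : (l 0 * l 2) * (l 1 * l 3) ≤ 16 * 16 :=
      mul_le_mul (h1.trans b1) (h2.trans b2) p2.le (by norm_num)
    have h4 : l 0 * l 1 * l 2 * l 3 = (l 0 * l 2) * (l 1 * l 3) := by ring
    rw [h4] at hprod
    linarith

end Pool.Agent.Results.MP_c59173_co.NoBoxTheorem
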